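import Pool.Agent.H.MP_53fdf7_co.D

set_option autoImplicit false

namespace Pool.Agent.H.MP_53fdf7_co

open Function Set

section gen
variable {P : Type} [PartialOrder P] {n : ℕ} {rk : P → ℤ}

theorem mem_of_bot {b : P} (hb : IsBot b) (Φ : Flag P) : b ∈ Φ :=
  Flag.mem_iff_forall_le_or_ge.2 fun c _ => Or.inl (hb c)

theorem mem_of_top {b : P} (hb : IsTop b) (Φ : Flag P) : b ∈ Φ :=
  Flag.mem_iff_forall_le_or_ge.2 fun c _ => Or.inr (hb c)

theorem le_of_rk (h : StrictMono rk) {Φ : Flag P} {a c : P} (ha : a ∈ Φ) (hc : c ∈ Φ)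
    (e : rk a ≤ rk c) : a ≤ c := by
  rcases Φ.le_or_le ha hc with q | q
  · exact q
  · rcases q.eq_or_lt with q | q
    · exact q.ge
    · exact absurd (h q) (by omega)

theorem Poly.lo (h : Poly P n rk) (a : P) : -1 ≤ rk a := by
  obtain ⟨b, hb, e⟩ := h.bot
  exact e ▸ h.mono.monotone (hb a)

theorem Poly.hi (h : Poly P n rk) (a : P) : rk a ≤ n := by
  obtain ⟨b, hb, e⟩ := h.top
  exact e ▸ h.mono.monotone (hb a)

theorem Poly.rk_le (h : Poly P n rk) (e : P ≃o P) :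
    ∀ (j : ℕ) (a : P), rk a + 1 = j → rk a ≤ rk (e a)
  | 0, a, ha => by have := h.lo (e a); omega
  | j + 1, a, ha => by
    obtain ⟨Φ, hΦ⟩ := Flag.exists_mem a
    have := h.hi a
    obtain ⟨c, ⟨c1, c2⟩, -⟩ := h.flag Φ (rk a - 1) (by omega) (by omega)
    have l : c < a := (le_of_rk h.mono c1 hΦ (by omega)).lt_of_ne (by rintro rfl; omega)
    have := h.mono (e.strictMono l)
    have := h.rk_le e j c (by omega)
    omega

theorem Poly.rk_map (h : Poly P n rk) (e : P ≃o P) (a : P) : rk (e a) = rk a := by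
  have l := h.lo a
  have l' := h.lo (e a)
  have h1 := h.rk_le e (rk a + 1).toNat a (by omega)
  have h2 := h.rk_le e.symm (rk (e a) + 1).toNat (e a) (by omega)
  rw [e.symm_apply_apply] at h2
  omega
end gen

variable {K : Type} [PartialOrder K] {Γ : Type} [Group Γ]

def H (rk : K → ℤ) (ρ : K → Γ) (F : K) : Subgroup Γ :=
  Subgroup.closure (ρ '' {v | rk v = 0 ∧ v ≤ F})

abbrev Q (rk : K → ℤ) (ρ : K → Γ) (b t : K) : Type :=
  {p : K × Set Γ // p = (b, ∅) ∨ ∃ g ∈ H rk ρ t, p.2 = {x | g⁻¹ * x ∈ H rk ρ p.1}}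

variable {n : ℕ} {rk : K → ℤ} {ρ : K → Γ} {b t : K}

theorem H_mono {F G : K} (h : F ≤ G) : H rk ρ F ≤ H rk ρ G :=
  Subgroup.closure_mono (image_mono fun _ hv => ⟨hv.1, hv.2.trans h⟩)

theorem H_gen {v F : K} (h : rk v = 0) (l : v ≤ F) : ρ v ∈ H rk ρ F :=
  Subgroup.subset_closure ⟨v, ⟨h, l⟩, rfl⟩

def mm (b : K) (g : H rk ρ t) (F : K) : Q rk ρ b t :=
  ⟨(F, {x | (g : Γ)⁻¹ * x ∈ H rk ρ F}), Or.inr ⟨g, g.2, rfl⟩⟩

def zz : Q rk ρ b t := ⟨(b, ∅), Or.inl rfl⟩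

theorem m_le {g h : H rk ρ t} {F G : K} :
    mm b g F ≤ mm b h G ↔ F ≤ G ∧ (h : Γ)⁻¹ * g ∈ H rk ρ G := by
  constructor
  · rintro ⟨h1, h2⟩
    exact ⟨h1, h2 (show (g : Γ)⁻¹ * g ∈ H rk ρ F by simp)⟩
  · rintro ⟨h1, h2⟩
    refine ⟨h1, fun x hx => ?_⟩
    have := mul_mem h2 (H_mono h1 hx)
    show (h : Γ)⁻¹ * x ∈ H rk ρ G
    simpa [mul_assoc] using this

theorem m_le' (g : H rk ρ t) {F G : K} : mm b g F ≤ mm b g G ↔ F ≤ G := by simp [m_le]

theorem m_eq {g h : H rk ρ t} {F G : K} :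
    mm b g F = mm b h G ↔ F = G ∧ (h : Γ)⁻¹ * g ∈ H rk ρ G := by
  rw [le_antisymm_iff, m_le, m_le]
  constructor
  · rintro ⟨⟨a, c⟩, d, -⟩
    exact ⟨a.antisymm d, c⟩
  · rintro ⟨rfl, c⟩
    exact ⟨⟨le_rfl, c⟩, le_rfl, by simpa using inv_mem c⟩

theorem m_inj (g : H rk ρ t) : Injective (mm b g) := fun _ _ e => (m_eq.1 e).1

theorem m_lt (g : H rk ρ t) {F G : K} : mm b g F < mm b g G ↔ F < G := by
  rw [lt_iff_le_not_ge, lt_iff_le_not_ge, m_le', m_le']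

theorem m_nle (g : H rk ρ t) (F : K) : ¬ mm b g F ≤ zz := fun h =>
  h.2 (show (g : Γ)⁻¹ * g ∈ H rk ρ F by simp)

theorem m_ne (g : H rk ρ t) (F : K) : mm b g F ≠ zz := fun h => m_nle g F h.le

theorem z_bot (hb : IsBot b) : IsBot (zz : Q rk ρ b t) := fun _ => ⟨hb _, empty_subset _⟩

theorem z_lt (hb : IsBot b) (g : H rk ρ t) (F : K) : zz < mm b g F :=
  (z_bot hb _).lt_of_ne (m_ne g F).symm

theorem cs (p : Q rk ρ b t) : p = zz ∨ ∃ g F, p = mm b g F := by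
  obtain ⟨⟨F, S⟩, h | ⟨g, g1, g2⟩⟩ := p
  · exact Or.inl (Subtype.ext h)
  · exact Or.inr ⟨⟨g, g1⟩, F, Subtype.ext (Prod.ext rfl g2)⟩

theorem up {g : H rk ρ t} {F : K} {p : Q rk ρ b t} (h : mm b g F ≤ p) : ∃ G, p = mm b g G := by
  rcases cs p with rfl | ⟨k, G, rfl⟩
  · exact absurd h (m_nle g F)
  · exact ⟨G, (m_eq.2 ⟨rfl, (m_le.1 h).2⟩).symm⟩

theorem m_top (ht : IsTop t) (g : H rk ρ t) : IsTop (mm b g t) := fun p => by
  rcases cs p with rfl | ⟨k, G, rfl⟩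
  · exact ⟨ht _, empty_subset _⟩
  · exact m_le.2 ⟨ht _, mul_mem (inv_mem g.2) k.2⟩

open Classical in
noncomputable def rr (p : Q rk ρ b t) : ℤ := if p = zz then -1 else rk p.1.1 + 1

theorem r_z : rr (zz : Q rk ρ b t) = -1 := if_pos rfl

theorem r_m (g : H rk ρ t) (F : K) : rr (mm b g F) = rk F + 1 := if_neg (m_ne g F)

structure Hy (n : ℕ) (rk : K → ℤ) (ρ : K → Γ) (b t : K) : Prop where
  po : Poly K n rk
  hb : IsBot b
  rb : rk b = -1
  ht : IsTop t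
  rt : rk t = n
  sq : ∀ v, rk v = 0 → ρ v * ρ v = 1
  ne : ∀ v, rk v = 0 → ρ v ≠ 1
  inj : ∀ v w, rk v = 0 → rk w = 0 → ρ v = ρ w → v = w

theorem Hy.eqb (y : Hy n rk ρ b t) {F : K} (h : rk F < 0) : F = b := by
  rcases (y.hb F).eq_or_lt with e | e
  · exact e.symm
  · have := y.po.mono e
    have := y.rb
    omega

theorem Hy.Hb (y : Hy n rk ρ b t) {x : Γ} : x ∈ H rk ρ b ↔ x = 1 := by
  have : ρ '' {v | rk v = 0 ∧ v ≤ b} = ∅ := by
    rw [image_eq_empty, eq_empty_iff_forall_notMem]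
    rintro v ⟨h1, h2⟩
    have := y.po.mono.monotone h2
    have := y.rb
    omega
  rw [H, this, Subgroup.closure_empty, Subgroup.mem_bot]

theorem Hy.Hv (y : Hy n rk ρ b t) {v : K} (hv : rk v = 0) {x : Γ} :
    x ∈ H rk ρ v ↔ x = 1 ∨ x = ρ v := by
  constructor
  · intro h
    induction h using Subgroup.closure_induction with
    | mem x hx =>
      obtain ⟨w, ⟨w1, w2⟩, rfl⟩ := hx
      rcases w2.eq_or_lt with e | e
      · exact Or.inr (by rw [e])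
      · have := y.po.mono e
        omega
    | one => exact Or.inl rfl
    | mul x z _ _ a c => rcases a with rfl | rfl <;> rcases c with rfl | rfl <;> simp [y.sq v hv]
    | inv x _ a =>
      rcases a with rfl | rfl
      · simp
      · exact Or.inr (inv_eq_of_mul_eq_one_right (y.sq v hv))
  · rintro (rfl | rfl)
    · exact one_mem _
    · exact H_gen hv le_rfl

theorem Hy.mb (y : Hy n rk ρ b t) {g h : H rk ρ t} : mm b g b = mm b h b ↔ g = h := by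
  rw [m_eq, y.Hb, inv_mul_eq_one, eq_comm (a := (h : Γ))]
  simp

theorem Hy.mono (y : Hy n rk ρ b t) : StrictMono (rr : Q rk ρ b t → ℤ) := by
  intro p q h
  rcases cs p with rfl | ⟨g, F, rfl⟩
  · rcases cs q with rfl | ⟨k, G, rfl⟩
    · exact absurd h (lt_irrefl _)
    · have := y.po.lo G
      rw [r_z, r_m]; omega
  · obtain ⟨G, rfl⟩ := up h.le
    have := y.po.mono ((m_lt g).1 h)
    rw [r_m, r_m]; omega

def Hy.fl (y : Hy n rk ρ b t) (g : H rk ρ t) (φ : Flag K) : Flag (Q rk ρ b t) where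
  carrier := insert zz (mm b g '' φ)
  Chain' := IsChain.insert
    (φ.chain_le.image_of_map_rel _ _ _ fun _ _ h => (m_le' g).2 h) fun _ _ _ => Or.inl (z_bot y.hb _)
  max_chain' := fun s hs h => by
    refine h.antisymm fun p hp => ?_
    rcases cs p with rfl | ⟨k, G, rfl⟩
    · exact Or.inl rfl
    have e : mm b k G = mm b g G := by
      rcases hs.total hp (h (Or.inr ⟨b, mem_of_bot y.hb φ, rfl⟩)) with e | e
      · obtain ⟨e1, e2⟩ := m_le.1 e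
        exact m_eq.2 ⟨rfl, H_mono (y.hb G) e2⟩
      · exact (m_eq.2 ⟨rfl, (m_le.1 e).2⟩).symm
    rw [e] at hp ⊢
    refine Or.inr ⟨G, Flag.mem_iff_forall_le_or_ge.2 fun c hc => ?_, rfl⟩
    simpa only [m_le'] using hs.total hp (h (Or.inr ⟨c, hc, rfl⟩))

theorem Hy.z_fl (y : Hy n rk ρ b t) (g : H rk ρ t) (φ : Flag K) : zz ∈ y.fl g φ := Or.inl rfl

theorem Hy.m_fl (y : Hy n rk ρ b t) {g h : H rk ρ t} {φ : Flag K} {F : K} :
    mm b h F ∈ y.fl g φ ↔ F ∈ φ ∧ (g : Γ)⁻¹ * h ∈ H rk ρ F := by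
  constructor
  · rintro (e | ⟨G, e1, e2⟩)
    · exact absurd e (m_ne _ _)
    · obtain ⟨rfl, e⟩ := m_eq.1 e2.symm
      exact ⟨e1, e⟩
  · rintro ⟨e1, e2⟩
    exact Or.inr ⟨F, e1, (m_eq.2 ⟨rfl, e2⟩).symm⟩

theorem Hy.m_fl' (y : Hy n rk ρ b t) {g : H rk ρ t} {φ : Flag K} {F : K} :
    mm b g F ∈ y.fl g φ ↔ F ∈ φ := by simp [y.m_fl]

theorem Hy.fl_cs (y : Hy n rk ρ b t) {g : H rk ρ t} {φ : Flag K} {p : Q rk ρ b t}
    (h : p ∈ y.fl g φ) : p = zz ∨ ∃ F ∈ φ, mm b g F = p := h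

theorem Hy.fl_surj (y : Hy n rk ρ b t) (Φ : Flag (Q rk ρ b t)) : ∃ g φ, Φ = y.fl g φ := by
  obtain ⟨i, ⟨p, p1, p2, rfl⟩, hi⟩ := Int.exists_least_of_bdd
    (P := fun i => ∃ p ∈ Φ, p ≠ zz ∧ rr p = i)
    ⟨-1, by rintro _ ⟨p, -, -, rfl⟩; exact r_z (rk := rk) (ρ := ρ) (b := b) (t := t) ▸
      y.mono.monotone (z_bot y.hb p)⟩
    ⟨_, mm b 1 t, mem_of_top (m_top y.ht 1) Φ, m_ne _ _, rfl⟩
  obtain ⟨g, F, rfl⟩ := (cs p).resolve_left p2
  obtain ⟨φ, hφ⟩ := IsChain.exists_subset_flag (c := {G | mm b g G ∈ Φ})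
    fun G hG G' hG' _ => by simpa only [m_le'] using Φ.le_or_le hG hG'
  refine ⟨g, φ, Flag.ext (Φ.max_chain' (y.fl g φ).chain_le fun q hq => ?_)⟩
  by_cases e : q = zz
  · exact Or.inl e
  obtain ⟨G, rfl⟩ := up (le_of_rk y.mono p1 hq (hi _ ⟨q, hq, e, rfl⟩))
  exact Or.inr ⟨G, hφ hq, rfl⟩

theorem Hy.fl_inj (y : Hy n rk ρ b t) {g h : H rk ρ t} {φ ψ : Flag K} (e : y.fl g φ = y.fl h ψ) :
    φ = ψ := by
  ext F
  exact ⟨fun q => (y.m_fl.1 (e ▸ y.m_fl'.2 q : mm b g F ∈ y.fl h ψ)).1,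
    fun q => (y.m_fl.1 (e ▸ y.m_fl'.2 q : mm b h F ∈ y.fl g φ)).1⟩

theorem ioo_m (g : H rk ρ t) (F G : K) : Ioo (mm b g F) (mm b g G) = mm b g '' Ioo F G := by
  ext p
  constructor
  · rintro ⟨h1, h2⟩
    obtain ⟨E, rfl⟩ := up h1.le
    exact ⟨E, ⟨(m_lt g).1 h1, (m_lt g).1 h2⟩, rfl⟩
  · rintro ⟨E, ⟨h1, h2⟩, rfl⟩
    exact ⟨(m_lt g).2 h1, (m_lt g).2 h2⟩

def Hy.mv (y : Hy n rk ρ b t) (g : H rk ρ t) {F : K} {x : Γ} (h : x ∈ H rk ρ F) : H rk ρ t :=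
  g * ⟨x, H_mono (y.ht F) h⟩

theorem Hy.mv_c (y : Hy n rk ρ b t) (g : H rk ρ t) {F : K} {x : Γ} (h : x ∈ H rk ρ F) :
    (y.mv g h : Γ) = g * x := rfl

theorem Hy.diamond (y : Hy n rk ρ b t) (p q : Q rk ρ b t) (h : p < q) (e : rr q = rr p + 2) :
    (Ioo p q).encard = 2 := by
  rcases cs p with rfl | ⟨g, F, rfl⟩
  · obtain ⟨g, v, rfl⟩ := (cs q).resolve_left h.ne'
    rw [r_z, r_m] at e
    have hv : rk v = 0 := by omega
    have bv : b ≠ v := by rintro rfl; have := y.rb; omega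
    refine encard_eq_two.2 ⟨mm b g b, mm b (y.mv g (H_gen hv le_rfl)) b, fun q => ?_, ?_⟩
    · have := congrArg Subtype.val (y.mb.1 q)
      exact y.ne v hv (by simpa [y.mv_c] using this)
    ext p
    simp only [mem_Ioo, mem_insert_iff, mem_singleton_iff]
    constructor
    · rintro ⟨h1, h2⟩
      obtain ⟨k, F, rfl⟩ := (cs p).resolve_left h1.ne'
      have := y.mono h2
      rw [r_m, r_m] at this
      obtain rfl := y.eqb (F := F) (by omega)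
      rw [y.mb, y.mb]
      rcases (y.Hv hv).1 (m_le.1 h2.le).2 with q | q
      · exact Or.inl (Subtype.ext (inv_mul_eq_one.1 q).symm)
      · exact Or.inr (Subtype.ext (by rw [y.mv_c, ← q]; simp))
    · rintro (rfl | rfl) <;> refine ⟨z_lt y.hb _ _, lt_of_le_of_ne (m_le.2 ⟨y.hb _, ?_⟩)
        fun q => bv (m_eq.1 q).1⟩
      · simp
      · simpa [y.mv_c] using H_gen hv le_rfl
  · obtain ⟨G, rfl⟩ := up h.le
    rw [r_m, r_m] at e
    rw [ioo_m, (m_inj g).injOn.encard_image]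
    exact y.po.diamond F G ((m_lt g).1 h) (by omega)

theorem Hy.nodigon (y : Hy n rk ρ b t) (d : NoDigon K rk) : NoDigon (Q rk ρ b t) rr := by
  intro p q h e
  rcases cs p with rfl | ⟨g, F, rfl⟩
  · obtain ⟨g, E, rfl⟩ := (cs q).resolve_left h.ne'
    rw [r_z, r_m] at e
    have rb := y.rb
    have bE : b ≠ E := by rintro rfl; omega
    obtain ⟨v, w, vw, q⟩ := encard_eq_two.1
      (y.po.diamond b E ((y.hb E).lt_of_ne bE) (by omega))
    have k : ∀ u ∈ Ioo b E, rk u = 0 ∧ u ≤ E := fun u hu => by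
      have := y.po.mono hu.1
      have := y.po.mono hu.2
      exact ⟨by omega, hu.2.le⟩
    obtain ⟨v1, v2⟩ := k v (by simp [q])
    obtain ⟨w1, w2⟩ := k w (by simp [q])
    intro c
    have s : ({mm b g b, mm b (y.mv g (H_gen v1 v2)) b, mm b (y.mv g (H_gen w1 w2)) b} : Set _) ⊆
        {p | zz < p ∧ p < mm b g E ∧ rr p = rr (zz : Q rk ρ b t) + 1} := by
      rintro p (rfl | rfl | rfl) <;> refine ⟨z_lt y.hb _ _, lt_of_le_of_ne (m_le.2 ⟨y.hb _, ?_⟩)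
        fun q => bE (m_eq.1 q).1, by rw [r_m, r_z, rb]⟩
      · simp
      · simpa [y.mv_c] using H_gen v1 v2
      · simpa [y.mv_c] using H_gen w1 w2
    have := encard_le_encard s
    rw [c, encard_eq_three.2 ⟨_, _, _, fun q => ?_, fun q => ?_, fun q => ?_, rfl⟩] at this
    · exact absurd this (by decide)
    · exact y.ne v v1 (by simpa [y.mv_c] using congrArg Subtype.val (y.mb.1 q))
    · exact y.ne w w1 (by simpa [y.mv_c] using congrArg Subtype.val (y.mb.1 q))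
    · exact vw (y.inj v w v1 w1 (by simpa [y.mv_c] using congrArg Subtype.val (y.mb.1 q)))
  · obtain ⟨G, rfl⟩ := up h.le
    rw [r_m, r_m] at e
    have : {p | mm b g F < p ∧ p < mm b g G ∧ rr p = rr (mm b g F) + 1} =
        mm b g '' {E | F < E ∧ E < G ∧ rk E = rk F + 1} := by
      ext p
      constructor
      · rintro ⟨h1, h2, h3⟩
        obtain ⟨E, rfl⟩ := up h1.le
        rw [r_m, r_m] at h3
        exact ⟨E, ⟨(m_lt g).1 h1, (m_lt g).1 h2, by omega⟩, rfl⟩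
      · rintro ⟨E, ⟨h1, h2, h3⟩, rfl⟩
        exact ⟨(m_lt g).2 h1, (m_lt g).2 h2, by rw [r_m, r_m, h3]⟩
    rw [this, (m_inj g).injOn.encard_image]
    exact d F G ((m_lt g).1 h) (by omega)

end Pool.Agent.H.MP_53fdf7_co
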