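import Pool.Agent.H.MP_53fdf7_co.A

set_option autoImplicit false

namespace Pool.Agent.H.MP_53fdf7_co

open Function Set Relation

variable {K : Type} [PartialOrder K] {Γ : Type} [Group Γ]
variable {n : ℕ} {rk : K → ℤ} {ρ : K → Γ} {b t : K}

def Rl {P : Type} [PartialOrder P] (C : Set P) (A B : Flag P) : Prop :=
  (∃! F, F ∈ A ∧ F ∉ B) ∧ C ⊆ (B : Set P)

theorem Hy.lift (y : Hy n rk ρ b t) (g : H rk ρ t) (φ ψ : Flag K) (C : Set (Q rk ρ b t))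
    (h1 : C ⊆ y.fl g φ) (h2 : C ⊆ y.fl g ψ) : ReflTransGen (Rl C) (y.fl g φ) (y.fl g ψ) := by
  refine ReflTransGen.lift (y.fl g) ?_ φ ψ (y.po.conn φ ψ)
  rintro A B ⟨⟨F, ⟨f1, f2⟩, f3⟩, s⟩
  refine ⟨⟨mm b g F, ⟨y.m_fl'.2 f1, fun q => f2 (y.m_fl'.1 q)⟩, ?_⟩, fun p hp => ?_⟩
  · rintro p ⟨p1, p2⟩
    rcases y.fl_cs p1 with rfl | ⟨G, g1, rfl⟩
    · exact absurd (y.z_fl _ _) p2
    · rw [f3 G ⟨g1, fun q => p2 (y.m_fl'.2 q)⟩]
  · rcases y.fl_cs (h1 hp) with rfl | ⟨G, g1, rfl⟩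
    · exact y.z_fl _ _
    · exact y.m_fl'.2 (s ⟨g1, y.m_fl'.1 (h2 hp)⟩)

theorem Hy.conn (y : Hy n rk ρ b t) (Φ Ψ : Flag (Q rk ρ b t)) :
    ReflTransGen (Rl ((Φ : Set (Q rk ρ b t)) ∩ Ψ)) Φ Ψ := by
  obtain ⟨g, φ, rfl⟩ := y.fl_surj Φ
  obtain ⟨h, ψ, rfl⟩ := y.fl_surj Ψ
  set C : Set (Q rk ρ b t) := (y.fl g φ : Set (Q rk ρ b t)) ∩ y.fl h ψ with hC
  obtain ⟨i, ⟨F, f1, f2, rfl⟩, hi⟩ := Int.exists_least_of_bdd
    (P := fun i => ∃ F ∈ φ, mm b g F ∈ y.fl h ψ ∧ rk F = i)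
    ⟨-1, by rintro _ ⟨p, -, -, rfl⟩; exact y.po.lo p⟩
    ⟨_, t, mem_of_top y.ht φ, mem_of_top (m_top y.ht g) _, rfl⟩
  have sub : ∀ (k : H rk ρ t) (χ : Flag K), (g : Γ)⁻¹ * k ∈ H rk ρ F → (∀ G ∈ φ, F ≤ G → G ∈ χ) →
      C ⊆ y.fl k χ := fun k χ k1 k2 p hp => by
    rcases y.fl_cs hp.1 with rfl | ⟨G, g1, rfl⟩
    · exact y.z_fl _ _
    · have l := le_of_rk y.po.mono f1 g1 (hi _ ⟨G, g1, hp.2, rfl⟩)
      exact y.m_fl.2 ⟨k2 G g1 l, H_mono l (by simpa using inv_mem k1)⟩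
  have one : ∀ (k : H rk ρ t) (v : K) (v1 : rk v = 0) (v2 : v ≤ F), (g : Γ)⁻¹ * k ∈ H rk ρ F →
      ReflTransGen (Rl C) (y.fl k φ) (y.fl (y.mv k (H_gen v1 v2)) φ) := fun k v v1 v2 k1 => by
    obtain ⟨χ, hχ⟩ := IsChain.exists_subset_flag (c := insert v {G | G ∈ φ ∧ F ≤ G})
      (IsChain.insert (φ.chain_le.mono fun _ h => h.1) fun G hG _ => Or.inl (v2.trans hG.2))
    have c1 : ∀ G ∈ φ, F ≤ G → G ∈ χ := fun G a c => hχ (Or.inr ⟨a, c⟩)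
    have c2 : v ∈ χ := hχ (Or.inl rfl)
    have k2 : (g : Γ)⁻¹ * y.mv k (H_gen v1 v2) ∈ H rk ρ F := by
      rw [y.mv_c, ← mul_assoc]; exact mul_mem k1 (H_gen v1 v2)
    refine ((y.lift k φ χ C (sub k φ k1 fun _ a _ => a) (sub k χ k1 c1)).tail
      ⟨⟨mm b k b, ⟨y.m_fl'.2 (mem_of_bot y.hb χ), fun q => ?_⟩, ?_⟩, sub _ χ k2 c1⟩).trans
      (y.lift _ χ φ C (sub _ χ k2 c1) (sub _ φ k2 fun _ a _ => a))
    · have := y.Hb.1 (y.m_fl.1 q).2
      exact y.ne v v1 (by simpa [y.mv_c] using this)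
    · rintro p ⟨p1, p2⟩
      rcases y.fl_cs p1 with rfl | ⟨G, g1, rfl⟩
      · exact absurd (y.z_fl _ _) p2
      by_cases e : rk G < 0
      · rw [y.eqb e]
      · refine absurd (y.m_fl.2 ⟨g1, ?_⟩) p2
        simpa [y.mv_c] using H_gen (ρ := ρ) v1 (le_of_rk y.po.mono c2 g1 (by omega))
  have all : ∀ x (hx : x ∈ H rk ρ F), ReflTransGen (Rl C) (y.fl g φ) (y.fl (y.mv g hx) φ) := by
    intro x hx
    induction hx using Subgroup.closure_induction_right with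
    | one =>
      have : y.mv g (one_mem (H rk ρ F)) = g := Subtype.ext (by simp [y.mv_c])
      exact this.symm ▸ ReflTransGen.refl
    | mul_right x hx z hz ih =>
      obtain ⟨v, ⟨v1, v2⟩, rfl⟩ := hz
      have := ih.trans (one (y.mv g hx) v v1 v2 (by rw [y.mv_c, inv_mul_cancel_left]; exact hx))
      convert this using 2
      exact Subtype.ext (by simp [y.mv_c, mul_assoc])
    | mul_inv_cancel x hx z hz ih =>
      obtain ⟨v, ⟨v1, v2⟩, rfl⟩ := hz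
      have := ih.trans (one (y.mv g hx) v v1 v2 (by rw [y.mv_c, inv_mul_cancel_left]; exact hx))
      convert this using 2
      exact Subtype.ext (by simp [y.mv_c, mul_assoc, inv_eq_of_mul_eq_one_right (y.sq v v1)])
  have hx : (g : Γ)⁻¹ * h ∈ H rk ρ F := by simpa using inv_mem (y.m_fl.1 f2).2
  have := all _ hx
  rw [show y.mv g hx = h from Subtype.ext (by simp [y.mv_c])] at this
  exact this.trans (y.lift h φ ψ C (sub h φ hx fun _ a _ => a) inter_subset_right)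

theorem Hy.poly (y : Hy n rk ρ b t) : Poly (Q rk ρ b t) (n + 1) rr where
  mono := y.mono
  bot := ⟨zz, z_bot y.hb, r_z⟩
  top := ⟨mm b 1 t, m_top y.ht 1, by rw [r_m, y.rt]; simp⟩
  flag := fun Φ i h1 h2 => by
    have ex : ∃ F, F ∈ Φ ∧ rr F = i := by
      obtain ⟨g, φ, rfl⟩ := y.fl_surj Φ
      rcases h1.eq_or_lt with rfl | h1
      · exact ⟨zz, y.z_fl _ _, r_z⟩
      · obtain ⟨F, ⟨f1, f2⟩, -⟩ := y.po.flag φ (i - 1) (by omega) (by omega)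
        exact ⟨mm b g F, y.m_fl'.2 f1, by rw [r_m]; omega⟩
    obtain ⟨F, f1, f2⟩ := ex
    exact ⟨F, ⟨f1, f2⟩, fun G hG => (le_of_rk y.mono hG.1 f1 (by rw [hG.2, f2])).antisymm
      (le_of_rk y.mono f1 hG.1 (by rw [hG.2, f2]))⟩
  conn := y.conn
  diamond := y.diamond

theorem Hy.conj (y : Hy n rk ρ b t) (σ : K ≃o K) (τ : Γ)
    (h : ∀ v, rk v = 0 → ρ (σ v) = τ * ρ v * τ⁻¹) {F : K} {x : Γ} (hx : x ∈ H rk ρ F) :
    τ * x * τ⁻¹ ∈ H rk ρ (σ F) := by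
  induction hx using Subgroup.closure_induction with
  | mem x hx =>
    obtain ⟨v, ⟨v1, v2⟩, rfl⟩ := hx
    exact h v v1 ▸ H_gen ((y.po.rk_map σ v).trans v1) (σ.monotone v2)
  | one => simp
  | mul x z _ _ a c => convert mul_mem a c using 1; group
  | inv x _ a => convert inv_mem a using 1; group

theorem Hy.conj' (y : Hy n rk ρ b t) (σ : K ≃o K) (τ : Γ)
    (h : ∀ v, rk v = 0 → ρ (σ v) = τ * ρ v * τ⁻¹) {F : K} {x : Γ} :
    τ * x * τ⁻¹ ∈ H rk ρ (σ F) ↔ x ∈ H rk ρ F := by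
  refine ⟨fun hx => ?_, y.conj σ τ h⟩
  have := y.conj σ.symm τ⁻¹ (fun v hv => by
    have := h (σ.symm v) ((y.po.rk_map _ v).trans hv)
    rw [σ.apply_symm_apply] at this
    rw [this]; group) hx
  rw [σ.symm_apply_apply] at this
  convert this using 1; group

theorem Hy.ext_iso (y : Hy n rk ρ b t) (σ : K ≃o K) (τ : Γ)
    (h : ∀ v, rk v = 0 → ρ (σ v) = τ * ρ v * τ⁻¹) (g k : H rk ρ t) :
    ∃ α : Q rk ρ b t ≃o Q rk ρ b t, α zz = zz ∧ ∀ F, α (mm b g F) = mm b k (σ F) := by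
  have st : σ t = t := (y.ht _).antisymm (σ.symm_apply_le.1 (y.ht _))
  have sb : σ b = b := (σ.le_symm_apply.1 (y.hb _)).antisymm (y.hb _)
  have ct : ∀ x, τ * x * τ⁻¹ ∈ H rk ρ t ↔ x ∈ H rk ρ t := fun x => by
    have := y.conj' σ τ h (F := t) (x := x)
    rwa [st] at this
  let u : H rk ρ t → H rk ρ t := fun a => k * ⟨τ * ((g⁻¹ * a : H rk ρ t) : Γ) * τ⁻¹, (ct _).2 (g⁻¹ * a).2⟩
  have uc : ∀ a c : H rk ρ t, (u a : Γ)⁻¹ * u c = τ * ((a : Γ)⁻¹ * c) * τ⁻¹ := fun a c => by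
    simp only [u, Subgroup.coe_mul, Subgroup.coe_inv]; group
  have ul : ∀ a c F G, mm b (u a) (σ F) ≤ mm b (u c) (σ G) ↔ mm b a F ≤ mm b c G := fun a c F G => by
    rw [m_le, m_le, uc, y.conj' σ τ h, σ.le_iff_le]
  have : ∀ p : Q rk ρ b t, ∃ q : Q rk ρ b t, (p = zz → q = zz) ∧
      ∀ a F, p = mm b a F → q = mm b (u a) (σ F) := fun p => by
    rcases cs p with rfl | ⟨a, F, rfl⟩
    · exact ⟨zz, fun _ => rfl, fun a F e => absurd e.symm (m_ne _ _)⟩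
    · exact ⟨mm b (u a) (σ F), fun e => absurd e (m_ne _ _), fun c G e =>
        ((ul _ _ _ _).2 e.le).antisymm ((ul _ _ _ _).2 e.ge)⟩
  choose f f1 f2 using this
  have fz := f1 _ rfl
  have fm := fun a F => f2 _ a F rfl
  refine ⟨RelIso.ofSurjective (OrderEmbedding.ofMapLEIff f fun p q => ?_) fun p => ?_, fz,
    fun F => (fm g F).trans ?_⟩
  · rcases cs p with rfl | ⟨a, F, rfl⟩
    · rw [fz]; exact iff_of_true (z_bot y.hb _) (z_bot y.hb _)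
    rcases cs q with rfl | ⟨c, G, rfl⟩
    · rw [fz, fm]; exact iff_of_false (m_nle _ _) (m_nle _ _)
    · rw [fm, fm, ul]
  · rcases cs p with rfl | ⟨a, F, rfl⟩
    · exact ⟨zz, fz⟩
    · refine ⟨mm b (g * ⟨τ⁻¹ * ((k⁻¹ * a : H rk ρ t) : Γ) * τ, (ct _).1 ?_⟩) (σ.symm F),
        (fm _ _).trans ?_⟩
      · convert (k⁻¹ * a).2 using 1; group
      · rw [σ.apply_symm_apply]
        congr 1
        apply Subtype.ext
        simp only [u, Subgroup.coe_mul, Subgroup.coe_inv]; group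
  · congr 1
    apply Subtype.ext
    simp [u]

theorem Hy.card (y : Hy n rk ρ b t) (g : H rk ρ t) (F : K) :
    {p : Q rk ρ b t | p ≤ mm b g F ∧ rr p = 0}.encard = (H rk ρ F : Set Γ).encard := by
  have e : {p : Q rk ρ b t | p ≤ mm b g F ∧ rr p = 0} =
      (fun a => mm b a b) '' {a : H rk ρ t | (g : Γ)⁻¹ * a ∈ H rk ρ F} := by
    ext p
    constructor
    · rintro ⟨h1, h2⟩
      rcases cs p with rfl | ⟨a, G, rfl⟩
      · rw [r_z] at h2; omega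
      rw [r_m] at h2
      obtain rfl := y.eqb (F := G) (by omega)
      exact ⟨a, (m_le.1 h1).2, rfl⟩
    · rintro ⟨a, h, rfl⟩
      exact ⟨m_le.2 ⟨y.hb _, h⟩, by rw [r_m, y.rb]; rfl⟩
  have e2 : (H rk ρ F : Set Γ) =
      (fun a : H rk ρ t => (g : Γ)⁻¹ * a) '' {a : H rk ρ t | (g : Γ)⁻¹ * a ∈ H rk ρ F} := by
    ext x
    constructor
    · exact fun h => ⟨y.mv g h, by simpa [y.mv_c] using h, by simp [y.mv_c]⟩
    · rintro ⟨a, h, rfl⟩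
      exact h
  rw [e, e2, InjOn.encard_image fun a _ c _ q => y.mb.1 q,
    InjOn.encard_image fun a _ c _ q => Subtype.ext (mul_left_cancel q)]

theorem Hy.res_iso (y : Hy n rk ρ b t) (α : Q rk ρ b t ≃o Q rk ρ b t) (g k : H rk ρ t)
    (h : α (mm b g b) = mm b k b) : ∃ σ : K ≃o K, (∀ F, α (mm b g F) = mm b k (σ F)) ∧
      ∀ F, (H rk ρ (σ F) : Set Γ).encard = (H rk ρ F : Set Γ).encard := by
  have : ∀ F, ∃ G, α (mm b g F) = mm b k G := fun F =>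
    up (h ▸ α.monotone ((m_le' g).2 (y.hb F)))
  choose f hf using this
  refine ⟨RelIso.ofSurjective (OrderEmbedding.ofMapLEIff f fun F G => ?_) fun G => ?_, hf,
    fun F => ?_⟩
  · rw [← m_le' (b := b) k, ← hf, ← hf, α.le_iff_le, m_le']
  · obtain ⟨F, e⟩ := up (α.le_symm_apply.2 (h ▸ (m_le' k).2 (y.hb G)))
    exact ⟨F, m_inj (b := b) k ((hf F).symm.trans (by rw [← e, α.apply_symm_apply]))⟩
  · show (H rk ρ (f F) : Set Γ).encard = _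
    rw [← y.card k, ← y.card g, ← hf, eq_comm, ← α.injective.injOn.encard_image]
    congr 1
    ext p
    obtain ⟨p, rfl⟩ := α.surjective p
    simp [y.poly.rk_map α]

theorem Hy.orbits (y : Hy n rk ρ b t) {k : ℕ} (c : Flag K → Fin k) (c0 : Surjective c)
    (c1 : ∀ φ ψ, c φ = c ψ → ∃ (σ : K ≃o K) (τ : Γ),
      (∀ v, rk v = 0 → ρ (σ v) = τ * ρ v * τ⁻¹) ∧ Flag.map σ φ = ψ)
    (c2 : ∀ (σ : K ≃o K) φ, (∀ F, (H rk ρ (σ F) : Set Γ).encard = (H rk ρ F : Set Γ).encard) →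
      c φ = c (Flag.map σ φ)) : Orbits (Q rk ρ b t) k := by
  have mp : ∀ (α : Q rk ρ b t ≃o Q rk ρ b t) (σ : K ≃o K) g h φ, (∀ F, α (mm b g F) = mm b h (σ F)) →
      Flag.map α (y.fl g φ) = y.fl h (Flag.map σ φ) := fun α σ g h φ e => by
    have z : α zz = zz := (α.le_symm_apply.1 (z_bot y.hb _)).antisymm (z_bot y.hb _)
    apply Flag.ext
    show α '' insert zz (mm b g '' φ) = insert zz (mm b h '' (σ '' φ))
    rw [image_insert_eq, z, image_image, image_image]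
    simp only [e]
  choose G f hf using y.fl_surj
  refine ⟨fun Φ => c (f Φ), fun i => ?_, fun Φ Ψ => ⟨fun e => ?_, ?_⟩⟩
  · obtain ⟨φ, rfl⟩ := c0 i
    exact ⟨y.fl 1 φ, congrArg c (y.fl_inj (hf _)).symm⟩
  · obtain ⟨σ, τ, s1, s2⟩ := c1 _ _ e
    obtain ⟨α, -, a⟩ := y.ext_iso σ τ s1 (G Φ) (G Ψ)
    exact ⟨α, by rw [hf Φ, mp α σ _ _ _ a, s2, ← hf]⟩
  · rintro ⟨α, e⟩
    have m : α (mm b (G Φ) b) ∈ y.fl (G Ψ) (f Ψ) := by
      rw [← hf, ← e]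
      have : mm b (G Φ) b ∈ y.fl (G Φ) (f Φ) := y.m_fl'.2 (mem_of_bot y.hb _)
      rw [← hf] at this
      exact ⟨_, this, rfl⟩
    have r := y.poly.rk_map α (mm b (G Φ) b)
    rw [r_m, y.rb] at r
    rcases y.fl_cs m with q | ⟨F, -, q⟩
    · rw [q, r_z] at r; omega
    rw [← q, r_m] at r
    rw [y.eqb (F := F) (by omega)] at q
    obtain ⟨σ, s1, s2⟩ := y.res_iso α _ _ q.symm
    have := mp α σ _ _ (f Φ) s1
    rw [← hf, e, hf Ψ] at this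
    show c (f Φ) = c (f Ψ)
    rw [c2 σ _ s2, y.fl_inj this]

theorem step {k : ℕ} (h : Poly K n rk) (o : Orbits K k) (d : NoDigon K rk) :
    ∃ (P : Type) (_ : PartialOrder P) (r : P → ℤ), Poly P (n + 1) r ∧ Orbits P k ∧ NoDigon P r := by
  classical
  obtain ⟨b, hb, rb⟩ := h.bot
  obtain ⟨t, ht, rt⟩ := h.top
  obtain ⟨c, c0, c1⟩ := o
  have y : Hy n rk (fun v => Equiv.swap (v, false) (v, true)) b t :=
    ⟨h, hb, rb, ht, rt, fun v _ => Equiv.swap_mul_self _ _, fun v _ => by simp,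
      fun v w _ _ e => by
        by_contra q
        have := congrArg (fun f : Equiv.Perm (K × Bool) => f (v, false)) e
        simp [Equiv.swap_apply_def, q] at this⟩
  refine ⟨_, inferInstance, rr, y.poly, y.orbits c c0 (fun φ ψ e => ?_)
    fun σ φ _ => (c1 _ _).2 ⟨σ, rfl⟩, y.nodigon d⟩
  obtain ⟨σ, s⟩ := (c1 _ _).1 e
  exact ⟨σ, σ.toEquiv.prodCongr (Equiv.refl Bool), fun v _ => by
    rw [← Equiv.swap_apply_apply]; rfl, s⟩

end Pool.Agent.H.MP_53fdf7_co
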