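import Pool.Agent.H.MP_53fdf7_co.B

set_option autoImplicit false

namespace Pool.Agent.H.MP_53fdf7_co

open Function Set Relation

structure Ap : Type where
  r : ℤ
  x : ℤ
  h : (r = -1 ∨ r = 2 → x = 0) ∧ -1 ≤ r ∧ r ≤ 2

theorem Ap.eq_iff (p q : Ap) : p = q ↔ p.r = q.r ∧ p.x = q.x := by
  cases p; cases q; simp

instance : PartialOrder Ap where
  le p q := (p.r = q.r ∧ p.x = q.x) ∨ (p.r < q.r ∧ (p.r = 0 → q.r = 1 → q.x = p.x ∨ q.x + 1 = p.x))
  le_refl p := Or.inl ⟨rfl, rfl⟩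
  le_trans p q s h1 h2 := by omega
  le_antisymm p q h1 h2 := (Ap.eq_iff p q).2 (by omega)

theorem Ap.le_iff (p q : Ap) : p ≤ q ↔ (p.r = q.r ∧ p.x = q.x) ∨
    (p.r < q.r ∧ (p.r = 0 → q.r = 1 → q.x = p.x ∨ q.x + 1 = p.x)) := Iff.rfl

theorem Ap.lt_iff (p q : Ap) : p < q ↔
    p.r < q.r ∧ (p.r = 0 → q.r = 1 → q.x = p.x ∨ q.x + 1 = p.x) := by
  rw [lt_iff_le_and_ne, Ap.le_iff, Ne, Ap.eq_iff]; omega

def bb : Ap := ⟨-1, 0, by omega⟩
def tt : Ap := ⟨2, 0, by omega⟩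
def V (v : ℤ) : Ap := ⟨0, v, by omega⟩
def E (v : ℤ) : Ap := ⟨1, v, by omega⟩

theorem bb_bot : IsBot bb := fun p => by have := p.h; simp only [Ap.le_iff, bb]; omega
theorem tt_top : IsTop tt := fun p => by have := p.h; simp only [Ap.le_iff, tt]; omega

def fg (s : ℤ) : Flag Ap where
  carrier := {p | (p.r = 0 → p.x = (s + 1) / 2) ∧ (p.r = 1 → p.x = s / 2)}
  Chain' := fun p hp q hq _ => by
    have := p.h
    have := q.h
    obtain ⟨a, c⟩ := hp
    obtain ⟨d, e⟩ := hq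
    simp only [Ap.le_iff]; omega
  max_chain' := fun S hS h => h.antisymm fun p hp => by
    have a := hS.total hp (h (show V ((s + 1) / 2) ∈ _ from ⟨fun _ => rfl, by simp [V]⟩))
    have c := hS.total hp (h (show E (s / 2) ∈ _ from ⟨by simp [E], fun _ => rfl⟩))
    simp only [Ap.le_iff, V, E] at a c
    constructor <;> omega

theorem mem_fg {s : ℤ} {p : Ap} :
    p ∈ fg s ↔ (p.r = 0 → p.x = (s + 1) / 2) ∧ (p.r = 1 → p.x = s / 2) := Iff.rfl

theorem V_fg {s v : ℤ} : V v ∈ fg s ↔ v = (s + 1) / 2 := by simp [mem_fg, V]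
theorem E_fg {s v : ℤ} : E v ∈ fg s ↔ v = s / 2 := by simp [mem_fg, E]

theorem fg_inj : Injective fg := fun s u e => by
  have a := V_fg.1 (e ▸ V_fg.2 rfl : V ((s + 1) / 2) ∈ fg u)
  have c := E_fg.1 (e ▸ E_fg.2 rfl : E (s / 2) ∈ fg u)
  omega

theorem fg_surj (Φ : Flag Ap) : ∃ s, Φ = fg s := by
  suffices ∃ s, (Φ : Set Ap) ⊆ fg s from
    this.imp fun s h => Flag.ext (Φ.max_chain' (fg s).chain_le h)
  have k : ∀ p ∈ Φ, ∀ q ∈ Φ, (p.r = q.r ∧ p.x = q.x) ∨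
      (p.r < q.r ∧ (p.r = 0 → q.r = 1 → q.x = p.x ∨ q.x + 1 = p.x)) ∨
      (q.r < p.r ∧ (q.r = 0 → p.r = 1 → p.x = q.x ∨ p.x + 1 = q.x)) := fun p hp q hq => by
    have := Φ.le_or_le hp hq
    simp only [Ap.le_iff] at this
    omega
  by_cases a : ∃ p ∈ Φ, p.r = 0 <;> by_cases c : ∃ q ∈ Φ, q.r = 1
  · obtain ⟨p, p1, p2⟩ := a
    obtain ⟨q, q1, q2⟩ := c
    refine ⟨p.x + q.x, fun u hu => mem_fg.2 ?_⟩
    have := k p p1 q q1
    have := k u hu q q1
    have := k p p1 u hu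
    omega
  · obtain ⟨p, p1, p2⟩ := a
    refine ⟨2 * p.x, fun u hu => mem_fg.2 ⟨?_, fun e => absurd ⟨u, hu, e⟩ c⟩⟩
    have := k p p1 u hu
    omega
  · obtain ⟨p, p1, p2⟩ := c
    refine ⟨2 * p.x, fun u hu => mem_fg.2 ⟨fun e => absurd ⟨u, hu, e⟩ a, ?_⟩⟩
    have := k p p1 u hu
    omega
  · exact ⟨0, fun u hu => mem_fg.2 ⟨fun e => absurd ⟨u, hu, e⟩ a, fun e => absurd ⟨u, hu, e⟩ c⟩⟩

theorem fg_adj {s u : ℤ} (h : u = s + 1 ∨ u = s - 1) : ∃! F, F ∈ fg s ∧ F ∉ fg u := by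
  by_cases e : (s + 1) / 2 = (u + 1) / 2
  · refine ⟨E (s / 2), ⟨E_fg.2 rfl, by rw [E_fg]; omega⟩, fun p hp => ?_⟩
    simp only [mem_fg, Ap.eq_iff, E] at hp ⊢
    omega
  · refine ⟨V ((s + 1) / 2), ⟨V_fg.2 rfl, by rw [V_fg]; omega⟩, fun p hp => ?_⟩
    simp only [mem_fg, Ap.eq_iff, V] at hp ⊢
    omega

theorem ap_poly : Poly Ap 2 Ap.r where
  mono := fun p q h => ((Ap.lt_iff p q).1 h).1
  bot := ⟨bb, bb_bot, rfl⟩
  top := ⟨tt, tt_top, rfl⟩
  flag := fun Φ i h1 h2 => by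
    obtain ⟨s, rfl⟩ := fg_surj Φ
    refine ⟨⟨i, if i = 0 then (s + 1) / 2 else if i = 1 then s / 2 else 0, by omega⟩,
      ⟨mem_fg.2 (by simp only; omega), rfl⟩, fun p hp => ?_⟩
    have := p.h
    simp only [mem_fg, Ap.eq_iff] at hp ⊢
    omega
  conn := fun Φ Ψ => by
    obtain ⟨s, rfl⟩ := fg_surj Φ
    obtain ⟨u, rfl⟩ := fg_surj Ψ
    by_cases e : u = s + 1 ∨ u = s - 1
    · exact ReflTransGen.single ⟨fg_adj e, inter_subset_right⟩
    rcases eq_or_ne u s with rfl | e'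
    · rfl
    have c : ∀ w, (fg s : Set Ap) ∩ fg u ⊆ fg w := fun w p hp => by
      have a := mem_fg.1 hp.1
      have c := mem_fg.1 hp.2
      exact mem_fg.2 (by omega)
    generalize (fg s : Set Ap) ∩ fg u = C at c
    clear e e'
    obtain ⟨d, rfl⟩ : ∃ d, u = s + d := ⟨u - s, by ring⟩
    induction d using Int.induction_on with
    | zero => rw [add_zero]
    | succ i ih => exact ih.tail ⟨fg_adj (by omega), c _⟩
    | pred i ih => exact ih.tail ⟨fg_adj (by omega), c _⟩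
  diamond := fun p q h e => by
    have := p.h
    have := q.h
    rcases (by omega : p.r = -1 ∨ p.r = 0) with a | a
    · refine encard_eq_two.2 ⟨V q.x, V (q.x + 1), by simp [V], ?_⟩
      ext u
      have := u.h
      simp only [mem_Ioo, Ap.lt_iff, mem_insert_iff, mem_singleton_iff, Ap.eq_iff, V]
      omega
    · refine encard_eq_two.2 ⟨E p.x, E (p.x - 1), by simp only [E, Ne, Ap.eq_iff]; omega, ?_⟩
      ext u
      have := u.h
      simp only [mem_Ioo, Ap.lt_iff, mem_insert_iff, mem_singleton_iff, Ap.eq_iff, E]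
      omega

theorem ap_nd : NoDigon Ap Ap.r := by
  intro p q _ e c
  have := p.h
  have := q.h
  have s : ({V 0, V 1, V 2} : Set Ap) ⊆ {u | p < u ∧ u < q ∧ u.r = p.r + 1} := by
    rintro u (rfl | rfl | rfl) <;> simp only [mem_setOf_eq, Ap.lt_iff, V] <;> omega
  have := encard_le_encard s
  rw [c, encard_eq_three.2 ⟨_, _, _, by simp [V], by simp [V], by simp [V], rfl⟩] at this
  exact absurd this (by decide)

def tr (c : ℤ) : Ap ≃o Ap where
  toFun p := ⟨p.r, if p.r = 0 ∨ p.r = 1 then p.x + c else 0, by have := p.h; omega⟩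
  invFun p := ⟨p.r, if p.r = 0 ∨ p.r = 1 then p.x - c else 0, by have := p.h; omega⟩
  left_inv p := by have := p.h; simp only [Ap.eq_iff, true_and]; omega
  right_inv p := by have := p.h; simp only [Ap.eq_iff, true_and]; omega
  map_rel_iff' {p q} := by
    have := p.h; have := q.h
    simp only [Ap.le_iff, Equiv.coe_fn_mk]; omega

def rf (c : ℤ) : Ap ≃o Ap where
  toFun p := ⟨p.r, if p.r = 0 then c - p.x else if p.r = 1 then c - 1 - p.x else 0,
    by have := p.h; omega⟩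
  invFun p := ⟨p.r, if p.r = 0 then c - p.x else if p.r = 1 then c - 1 - p.x else 0,
    by have := p.h; omega⟩
  left_inv p := by have := p.h; simp only [Ap.eq_iff, true_and]; omega
  right_inv p := by have := p.h; simp only [Ap.eq_iff, true_and]; omega
  map_rel_iff' {p q} := by
    have := p.h; have := q.h
    simp only [Ap.le_iff, Equiv.coe_fn_mk]; omega

theorem map_eq (σ : Ap ≃o Ap) (s u : ℤ) (h : ∀ p ∈ fg s, σ p ∈ fg u) :
    Flag.map σ (fg s) = fg u :=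
  Flag.ext ((Flag.map σ (fg s)).max_chain' (fg u).chain_le (by rintro _ ⟨p, hp, rfl⟩; exact h p hp))

theorem tr_fg (c s : ℤ) : Flag.map (tr c) (fg s) = fg (s + 2 * c) := map_eq _ _ _ fun p hp => by
  have := mem_fg.1 hp
  refine mem_fg.2 ?_
  show (p.r = 0 → (if p.r = 0 ∨ p.r = 1 then p.x + c else 0) = _) ∧
    (p.r = 1 → (if p.r = 0 ∨ p.r = 1 then p.x + c else 0) = _)
  omega

theorem rf_fg (c s : ℤ) : Flag.map (rf c) (fg s) = fg (2 * c - 1 - s) :=
  map_eq _ _ _ fun p hp => by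
  have := mem_fg.1 hp
  refine mem_fg.2 ?_
  show (p.r = 0 → (if p.r = 0 then c - p.x else if p.r = 1 then c - 1 - p.x else 0) = _) ∧
    (p.r = 1 → (if p.r = 0 then c - p.x else if p.r = 1 then c - 1 - p.x else 0) = _)
  omega

theorem ap_one : Orbits Ap 1 := by
  refine ⟨fun _ => 0, fun i => ⟨fg 0, Subsingleton.elim _ _⟩, fun Φ Ψ => iff_of_true rfl ?_⟩
  obtain ⟨s, rfl⟩ := fg_surj Φ
  obtain ⟨u, rfl⟩ := fg_surj Ψ
  rcases (by omega : u = s + 2 * ((u - s) / 2) ∨ u = 2 * ((u + s + 1) / 2) - 1 - s) with e | e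
  · exact ⟨_, (tr_fg _ _).trans (congrArg fg e.symm)⟩
  · exact ⟨_, (rf_fg _ _).trans (congrArg fg e.symm)⟩

theorem ap_aut (σ : Ap ≃o Ap) : ∃ e, σ (E 0) = E e ∧ ((∀ s, Flag.map σ (fg s) = fg (s + 2 * e)) ∨
    ∀ s, Flag.map σ (fg s) = fg (2 * e + 1 - s)) := by
  choose τ h using fun s => fg_surj (Flag.map σ (fg s))
  have i : Injective τ := fun s u e => fg_inj ((Flag.map σ).injective (by rw [h, h, e]))
  have m : ∀ s p, p ∈ fg s → σ p ∈ fg (τ s) := fun s p hp => h s ▸ ⟨p, hp, rfl⟩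
  have a : ∀ s, τ (s + 1) = τ s + 1 ∨ τ (s + 1) = τ s - 1 := fun s => by
    have := i.ne (show s ≠ s + 1 by omega)
    rcases (by omega : s / 2 = (s + 1) / 2 ∨ (s + 1) / 2 = (s + 1 + 1) / 2) with e | e
    · have r : (σ (E (s / 2))).r = 1 := ap_poly.rk_map σ _
      have := (mem_fg.1 (m s _ (E_fg.2 rfl))).2 r
      have := (mem_fg.1 (m (s + 1) _ (E_fg.2 e))).2 r
      omega
    · have r : (σ (V ((s + 1) / 2))).r = 0 := ap_poly.rk_map σ _
      have := (mem_fg.1 (m s _ (V_fg.2 rfl))).1 r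
      have := (mem_fg.1 (m (s + 1) _ (V_fg.2 e))).1 r
      omega
  have d : ∀ s, τ (s + 1) - τ s = τ 1 - τ 0 := fun s => by
    have q : ∀ s, τ (s + 1 + 1) - τ (s + 1) = τ (s + 1) - τ s := fun s => by
      have := a s
      have := a (s + 1)
      have := i.ne (show s ≠ s + 1 + 1 by omega)
      omega
    induction s using Int.induction_on with
    | zero => simp
    | succ j ih => rw [q, ih]
    | pred j ih => rw [← q, sub_add_cancel, ih]
  have f : ∀ s, τ s = τ 0 + s * (τ 1 - τ 0) := fun s => by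
    induction s using Int.induction_on with
    | zero => simp
    | succ j ih => linear_combination ih + d j
    | pred j ih =>
      have := d (-j - 1)
      rw [sub_add_cancel] at this
      linear_combination ih - this
  have r : (σ (E 0)).r = 1 := ap_poly.rk_map σ _
  have e0 := (mem_fg.1 (m 0 (E 0) (E_fg.2 rfl))).2 r
  have e1 := (mem_fg.1 (m 1 (E 0) (E_fg.2 rfl))).2 r
  have a0 := a 0
  rw [zero_add] at a0
  refine ⟨(σ (E 0)).x, (Ap.eq_iff _ _).2 ⟨r, rfl⟩, a0.imp (fun q s => ?_) fun q s => ?_⟩ <;>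
    rw [h, f, q] <;> congr 1 <;> ring_nf <;> omega

end Pool.Agent.H.MP_53fdf7_co
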