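import Mathlib

set_option autoImplicit false

namespace Pool.Agent.H.MP_53fdf7_co

/-- `P` with rank function `rk` is an abstract `n`-polytope; flags are maximal chains. -/
structure Poly (P : Type) [PartialOrder P] (n : ℕ) (rk : P → ℤ) : Prop where
  mono : StrictMono rk
  bot : ∃ b, IsBot b ∧ rk b = -1
  top : ∃ t, IsTop t ∧ rk t = n
  flag : ∀ (Φ : Flag P) (i : ℤ), -1 ≤ i → i ≤ n → ∃! F, F ∈ Φ ∧ rk F = i
  conn : ∀ Φ Ψ : Flag P, Relation.ReflTransGen
    (fun A B : Flag P => (∃! F, F ∈ A ∧ F ∉ B) ∧ (Φ : Set P) ∩ (Ψ : Set P) ⊆ (B : Set P)) Φ Ψ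
  diamond : ∀ F G, F < G → rk G = rk F + 2 → (Set.Ioo F G).encard = 2

/-- the order automorphisms of `P` have exactly `k` orbits on the flags -/
def Orbits (P : Type) [PartialOrder P] (k : ℕ) : Prop :=
  ∃ c : Flag P → Fin k, Function.Surjective c ∧
    ∀ Φ Ψ, c Φ = c Ψ ↔ ∃ e : P ≃o P, Flag.map e Φ = Ψ

/-- no section of rank 2 has exactly two vertices -/
def NoDigon (P : Type) [PartialOrder P] (rk : P → ℤ) : Prop :=
  ∀ F G, F < G → rk G = rk F + 3 → {H | F < H ∧ H < G ∧ rk H = rk F + 1}.encard ≠ 2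

end Pool.Agent.H.MP_53fdf7_co
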