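import Pool.Agent.H.MP_53fdf7_co.C

set_option autoImplicit false

namespace Pool.Agent.H.MP_53fdf7_co

open Function Set Equiv

theorem four {Γ : Type} [Group Γ] (a c : Γ) (h1 : a * a = 1) (h2 : c * c = 1) (h : c * a = a * c) :
    (Subgroup.closure {a, c} : Set Γ).encard ≤ 4 := by
  have l1 : ∀ x, a * (a * x) = x := fun x => by rw [← mul_assoc, h1, one_mul]
  have l2 : ∀ x, c * (a * x) = a * (c * x) := fun x => by rw [← mul_assoc, h, mul_assoc]
  have s : (Subgroup.closure {a, c} : Set Γ) ⊆ {1, a, c, a * c} := by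
    intro x hx
    simp only [mem_insert_iff, mem_singleton_iff]
    induction hx using Subgroup.closure_induction with
    | mem x hx => rcases hx with rfl | rfl <;> simp
    | one => simp
    | mul x z _ _ p q =>
      rcases p with rfl | rfl | rfl | rfl <;> rcases q with rfl | rfl | rfl | rfl <;>
        simp [mul_assoc, h1, h2, h, l1, l2]
    | inv x _ p =>
      rcases p with rfl | rfl | rfl | rfl <;>
        simp [inv_eq_of_mul_eq_one_right h1, inv_eq_of_mul_eq_one_right h2, h]
  refine (encard_le_encard s).trans ?_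
  refine (encard_insert_le _ _).trans ?_
  refine (add_le_add_left (encard_insert_le _ _) _).trans ?_
  refine (add_le_add_left (add_le_add_left (encard_insert_le _ _) _) _).trans ?_
  rw [encard_singleton]
  decide

theorem five {X : Type} [DecidableEq X] (x y z : X) (h1 : x ≠ y) (h2 : x ≠ z) (h3 : y ≠ z) :
    5 ≤ (Subgroup.closure {swap x z, swap y z} : Set (Perm X)).encard := by
  have a : swap x z ∈ Subgroup.closure {swap x z, swap y z} := Subgroup.subset_closure (by simp)
  have c : swap y z ∈ Subgroup.closure {swap x z, swap y z} := Subgroup.subset_closure (by simp)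
  have s : ({(x, y), (z, y), (x, z), (z, x), (y, z)} : Set (X × X)) ⊆
      (fun g : Perm X => (g x, g y)) '' Subgroup.closure {swap x z, swap y z} := by
    rintro p (rfl | rfl | rfl | rfl | rfl)
    · exact ⟨1, one_mem _, rfl⟩
    · exact ⟨_, a, by simp [swap_apply_def, h1.symm, h3]⟩
    · exact ⟨_, c, by simp [swap_apply_def, h1, h2]⟩
    · exact ⟨_, mul_mem a c, by simp [swap_apply_def, h1, h2, h2.symm]⟩
    · exact ⟨_, mul_mem c a, by simp [swap_apply_def, h1.symm, h3, h3.symm]⟩
  refine le_trans (le_of_eq ?_) ((encard_le_encard s).trans (encard_image_le _ _))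
  rw [encard_insert_of_notMem (by simp [h1, h2, h3]),
    encard_insert_of_notMem (by simp [h1.symm, h2.symm, h3, h3.symm]),
    encard_insert_of_notMem (by simp [h1, h2]), encard_pair (by simp [h2, h3.symm])]
  rfl

def ff (k v : ℤ) : ℤ := if k ∣ v then 2 * v + 1 else if k ∣ v - 1 then 2 * v - 1 else 2 * v

def rho (k : ℤ) (p : Ap) : Perm (ℤ × Bool) := swap (2 * p.x, false) (ff k p.x, true)

theorem H_E (k e : ℤ) : H Ap.r (rho k) (E e) = Subgroup.closure {rho k (V e), rho k (V (e + 1))} := by
  rw [H, ← image_pair]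
  congr 2
  ext p
  simp only [mem_setOf_eq, Ap.le_iff, mem_insert_iff, mem_singleton_iff, Ap.eq_iff, V, E,
    forall_const]
  omega

theorem nd {k : ℤ} (hk : 2 ≤ k) (v : ℤ) (a : k ∣ v) (c : k ∣ v - 1) : False := by
  have := Int.le_of_dvd one_pos (by simpa using dvd_sub a c : k ∣ 1)
  omega

theorem special {k : ℤ} (hk : 2 ≤ k) (e : ℤ) :
    5 ≤ (H Ap.r (rho k) (E e) : Set (Perm (ℤ × Bool))).encard ↔ k ∣ e := by
  rw [H_E]
  constructor
  · intro h
    by_contra q
    have n : ff k e ≠ ff k (e + 1) := by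
      simp only [ff, add_sub_cancel_right, q, if_false]
      split_ifs <;> omega
    refine absurd (h.trans (four _ _ (swap_mul_self _ _) (swap_mul_self _ _) ?_)) (by decide)
    refine (Perm.Disjoint.commute (Perm.disjoint_swap_swap ?_)).eq
    simp [V, n.symm]
  · intro q
    have n : ff k (e + 1) = ff k e := by
      have : ¬ k ∣ e + 1 := fun a => nd hk _ a (by simpa using q)
      simp only [ff, add_sub_cancel_right, q, this, if_false, if_true]
      ring
    simp only [rho, V, n]
    exact five _ _ _ (by simp) (by simp) (by simp)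

theorem rho_hy (k : ℤ) : Hy 2 Ap.r (rho k) bb tt :=
  ⟨ap_poly, bb_bot, rfl, tt_top, rfl, fun v _ => swap_mul_self _ _, fun v _ => by simp [rho],
    fun v w a c e => by
      by_contra q
      have n : v.x ≠ w.x := fun z => q ((Ap.eq_iff _ _).2 ⟨a.trans c.symm, z⟩)
      have := congrArg (fun f : Perm (ℤ × Bool) => f (2 * v.x, false)) e
      simp [rho, swap_apply_def, n] at this⟩

def col (k s : ℤ) : ℤ := if (s - 1) % (2 * k) < k then (s - 1) % (2 * k) else 2 * k - 1 - (s - 1) % (2 * k)

theorem col_eq {k : ℤ} (hk : 0 < k) (s u : ℤ) :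
    col k s = col k u ↔ ∃ e, k ∣ e ∧ (u = s + 2 * e ∨ u = 2 * e + 1 - s) := by
  have a1 := Int.emod_nonneg (s - 1) (show 2 * k ≠ 0 by omega)
  have a2 := Int.emod_lt_of_pos (s - 1) (show 0 < 2 * k by omega)
  have a3 := Int.emod_add_mul_ediv (s - 1) (2 * k)
  have c1 := Int.emod_nonneg (u - 1) (show 2 * k ≠ 0 by omega)
  have c2 := Int.emod_lt_of_pos (u - 1) (show 0 < 2 * k by omega)
  have c3 := Int.emod_add_mul_ediv (u - 1) (2 * k)
  simp only [col]
  generalize (s - 1) % (2 * k) = r at *
  generalize (u - 1) % (2 * k) = w at *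
  generalize (s - 1) / (2 * k) = i at *
  generalize (u - 1) / (2 * k) = j at *
  constructor
  · intro h
    rcases (by omega : r = w ∨ r + w = 2 * k - 1) with e | e
    · exact ⟨k * (j - i), dvd_mul_right _ _, Or.inl (by linear_combination a3 - c3 - e)⟩
    · exact ⟨k * (i + j + 1), dvd_mul_right _ _, Or.inr (by linear_combination e - a3 - c3)⟩
  · rintro ⟨_, ⟨e, rfl⟩, h | h⟩
    · have : w - r = 0 := Int.eq_zero_of_abs_lt_dvd (m := 2 * k)
        ⟨e + i - j, by linear_combination c3 - a3 + h⟩ (abs_lt.2 (by omega))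
      omega
    · have : w + r + 1 - 2 * k = 0 := Int.eq_zero_of_abs_lt_dvd (m := 2 * k)
        ⟨e - i - j - 1, by linear_combination c3 + a3 + h⟩ (abs_lt.2 (by omega))
      omega

theorem col_lt {k : ℤ} (hk : 0 < k) (s : ℤ) : 0 ≤ col k s ∧ col k s < k := by
  have a1 := Int.emod_nonneg (s - 1) (show 2 * k ≠ 0 by omega)
  have a2 := Int.emod_lt_of_pos (s - 1) (show 0 < 2 * k by omega)
  simp only [col]
  omega

theorem base (k : ℕ) (hk : 1 ≤ k) : ∃ (P : Type) (_ : PartialOrder P) (r : P → ℤ),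
    Poly P 3 r ∧ Orbits P k ∧ NoDigon P r := by
  rcases hk.eq_or_lt with rfl | hk
  · exact step ap_poly ap_one ap_nd
  have k0 : (0 : ℤ) < k := by omega
  have k2 : (2 : ℤ) ≤ k := by omega
  have y := rho_hy k
  choose s hs using fg_surj
  have sf : ∀ u, s (fg u) = u := fun u => fg_inj (hs _).symm
  let c : Flag Ap → Fin k := fun Φ => ⟨(col k (s Φ)).toNat, by have := col_lt k0 (s Φ); omega⟩
  have ce : ∀ u w, c (fg u) = c (fg w) ↔ ∃ e, (k : ℤ) ∣ e ∧ (w = u + 2 * e ∨ w = 2 * e + 1 - u) :=
    fun u w => by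
      have := col_lt k0 u
      have := col_lt k0 w
      simp only [c, Fin.mk.injEq, sf, ← col_eq k0]
      omega
  refine ⟨_, inferInstance, rr, y.poly, y.orbits c (fun i => ⟨fg (i + 1), Fin.ext ?_⟩)
    (fun φ ψ e0 => ?_) fun σ φ h => ?_, y.nodigon ap_nd⟩
  · have := i.2
    simp only [c, sf, col, add_sub_cancel_right]
    rw [Int.emod_eq_of_lt (by omega) (by omega)]
    omega
  · obtain ⟨u, rfl⟩ := fg_surj φ
    obtain ⟨w, rfl⟩ := fg_surj ψ
    obtain ⟨e, e1, rfl | rfl⟩ := (ce _ _).1 e0
    · refine ⟨tr e, (Equiv.addRight (2 * e)).prodCongr (Equiv.refl Bool), fun v hv => ?_, tr_fg _ _⟩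
      have : (tr e v).x = v.x + e := if_pos (Or.inl hv)
      rw [rho, rho, ← swap_apply_apply, this]
      congr 2
      · simp [mul_add]
      · simp only [ff, add_sub_right_comm _ e, dvd_add_left e1, Equiv.coe_addRight]
        split_ifs <;> ring
    · refine ⟨rf (e + 1), (Equiv.subLeft (2 * e + 2)).prodCongr (Equiv.refl Bool), fun v hv => ?_,
        (rf_fg _ _).trans (congrArg fg (by ring))⟩
      have : (rf (e + 1) v).x = e + 1 - v.x := if_pos hv
      rw [rho, rho, ← swap_apply_apply, this]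
      congr 2
      · simp only [Equiv.subLeft_apply]; ring
      · have a : (k : ℤ) ∣ e + 1 - v.x ↔ (k : ℤ) ∣ v.x - 1 := by
          rw [show e + 1 - v.x = e + -(v.x - 1) by ring, dvd_add_right e1, dvd_neg]
        have d : (k : ℤ) ∣ e + 1 - v.x - 1 ↔ (k : ℤ) ∣ v.x := by
          rw [show e + 1 - v.x - 1 = e + -v.x by ring, dvd_add_right e1, dvd_neg]
        simp only [ff, a, d, Equiv.subLeft_apply]
        split_ifs with p q
        · exact (nd k2 _ q p).elim
        all_goals ring
  · obtain ⟨u, rfl⟩ := fg_surj φ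
    obtain ⟨e, e1, e2⟩ := ap_aut σ
    have := (special k2 0).2 (dvd_zero _)
    rw [← h, e1, special k2] at this
    rcases e2 with q | q <;> rw [q] <;> exact (ce _ _).2 ⟨e, this, by simp⟩

end Pool.Agent.H.MP_53fdf7_co
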